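import Pool.Agent.K4H22.NS.Main

set_option autoImplicit false

/-!
# Nef divisors on `(A × F) / G`: reduction to the simply connected factor

MP_5ee2d0_ag, Q1: is every nef divisor `L` on a projective manifold `X` with `K_X ∼ 0` and
`H¹(X, O_X) = 0` semiample? By the theorem of Beauville and Bogomolov every such `X` is a quotient
`(A × F) / G`, where `A = V / Λ` is an abelian variety (possibly a point), `F` a simply connected
projective manifold with `K_F ∼ 0` (a product of Calabi-Yau and hyperkähler manifolds) and `G` a finite
group which acts diagonally.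

Here we consider all quotients `X = (A × F) / G` of an abelian variety `A` and a normal projective
variety `F` with free class group `Cl(F) = ℤ^ρ` by a finite group which acts diagonally. The action may
have fixed points and fixed divisors, and neither `K_X` nor `K_F` need be trivial. `X` is the quotient
of `V × F` by a group `Γ` of pairs `(a, φ)` of an affine transformation `a` of `V` and an automorphism
of `F`, given by an automorphism `φ` of the ring `R = ⨁ H⁰(F, O_F(β))`; a divisor on `X` is given by a
reflexive sheaf of rank one, that is, a `Γ`-invariant class `deg` of `F` and a factor of automorphy.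

Theorem. All nef sheaves on `X` are semiample if and only if `H¹(X, O_X) = 0` and all `G`-invariant nef
classes of `F` are semiample. So Q1 for `X` is equivalent to its conclusion for the `G`-invariant
divisors of the simply connected factor `F`. The effective form: if `H¹(X, O_X) = 0`, `𝓛` is a nef sheaf
and `k deg 𝓛` has no base points on `F`, then `𝓛^{[M]}` is generated by global sections for
`M = 4 a b |GL_2n(F_3)|^5 k`, where `n = dim A`, `a = linNum` is the number of the linear parts of the
`a` in `Γ` and `b = galNum` the number of the automorphisms `φ` (every sheaf on `X` has a Chern form, by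
the theorem of Appell and Humbert).

`H¹(X, O_X)` is the `G`-invariant part of `H¹(A × F, O) = H¹(A, O_A)` (`Pic F` is discrete), the space
of the conjugate-linear functionals on `V` which are invariant under the linear parts of `Γ`
(`HOneZero`).

The proof: the character given by a nef sheaf on the lattice vectors `b` in the kernel of its Chern form
is invariant under the linear parts, and the sum of the translates of `b` is an invariant vector, so
zero (library `Pool.Agent.TH735.AQ`; bounded exponents are in `Pool.Agent.R800.UA`). A section on `A`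
is multiplied by the norm of a section on `F` over the finite group of the `φ`. If `H¹(X, O_X) ≠ 0` there is
a flat line bundle on the image of `A` no power of which has a section.

`IsTorusQuotient` is defined in `Pool.Agent.W594.SYZ.Defs2`; `IsPositiveForm` in
`Pool.Agent.W594.SYZ.TQDefs`; `HOneZero` in `Pool.Agent.TH735.AQ.Defs`; `Cl`, `Semistable`,
`SemiampleF`, `Grp`, `base`, `Inv`, `IsQuotient`, `Sheaf`, `Sheaf.IsPowSection`, `Sheaf.IsSemiample` and
`Sheaf.IsChern` in `Pool.Agent.X324.CF.Defs`; `IsProjective`, `NefF`, `FreeF`, `FreePow`, `power`,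
`prod`, `IsNef`, `linNum` and `galNum` in `Pool.Agent.K4H22.NS.Defs`.
-/

namespace Pool.Agent.Results.MP_5ee2d0_ag.NefReduction

open Pool.Agent.W594.SYZ2 Pool.Agent.TH735.AQ Pool.Agent.X324.CF Pool.Agent.K4H22.NS

/-- Let `F` be a projective variety with free class group, `X = (V × F) / Γ` a projective quotient of
the product of an abelian variety and `F` by a finite group which acts diagonally. -/
theorem result {V R : Type*} [NormedAddCommGroup V] [NormedSpace ℂ V] [FiniteDimensional ℂ V]
    [CommRing R] [IsDomain R] [Algebra ℂ R] {ρ n : ℕ} (hn : Module.finrank ℂ V = n)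
    (𝒜 : Cl ρ → Submodule ℂ R) [GradedAlgebra 𝒜] (u : Cl ρ) (hF : IsProjective 𝒜 u)
    (Γ : Grp V R) (hX : IsQuotient 𝒜 u Γ)
    (hproj : ∃ (L : Sheaf 𝒜 Γ) (H : V → V → ℂ), L.IsChern H ∧ IsPositiveForm H) :
    ((∀ (𝓛 : Sheaf 𝒜 Γ) (H : V → V → ℂ), 𝓛.IsChern H → IsNef 𝓛 u → 𝓛.IsSemiample u) ↔
      HOneZero (base Γ) ∧ ∀ β : Cl ρ, Inv 𝒜 Γ β → NefF 𝒜 u β → SemiampleF 𝒜 u β) ∧
    (HOneZero (base Γ) → ∀ (𝓛 : Sheaf 𝒜 Γ) (H : V → V → ℂ), 𝓛.IsChern H → IsNef 𝓛 u →
      ∀ k : ℕ, FreeF 𝒜 u 𝓛.deg k →
        FreePow 𝓛 u (linNum Γ * galNum Γ * (4 * Nat.card (GL (Fin (2 * n)) (ZMod 3)) ^ 5) * k)) := by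
  refine ⟨criterion hF hX hproj, fun h01 𝓛 H hc hnef k hk => ?_⟩
  exact free_uniform hX h01 hn hc (of_isNef hX hF.point hc hnef).1 hk

end Pool.Agent.Results.MP_5ee2d0_ag.NefReduction
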